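import Mathlib

/-!
# Completions of algebraically closed ultrametric fields are algebraically closed
-/

set_option autoImplicit false

namespace Pool.Agent.Helper79.DM

open Polynomial

/-- The completion of an algebraically closed ultrametric field is algebraically closed
(any characteristic). -/
theorem isAlgClosed_of_dense {F L : Type*} [Field F] [IsAlgClosed F] [hL : NormedField L]
    [CompleteSpace L] [IsUltrametricDist L] [Algebra F L] (hi : DenseRange (algebraMap F L)) :
    IsAlgClosed L := by
  by_cases hn : ∃ x : L, 1 < ‖x‖
  · let : NontriviallyNormedField L := { hL with non_trivial := hn }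
    apply IsAlgClosed.of_exists_root
    intro f fmon firr
    have fnatdeg0 : f.natDegree ≠ 0 := (Irreducible.natDegree_pos firr).ne'
    let E := f.SplittingField
    let : NormedField E := spectralNorm.normedField L E
    let : NormedAlgebra L E := spectralNorm.normedAlgebra L E
    let a := rootOfSplits (SplittingField.splits f)
        (by simpa using degree_ne_of_natDegree_ne fnatdeg0)
    have fa0 : f.aeval a = 0 := by
      rw [← eval_map_algebraMap]
      exact eval_rootOfSplits (Polynomial.SplittingField.splits f)
        (by simpa using degree_ne_of_natDegree_ne fnatdeg0)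
    have hclosed : IsClosed (Set.range (algebraMap L E)) :=
      (algebraMap_isometry L E).isClosedEmbedding.isClosed_range
    have hmem : a ∈ closure (Set.range (algebraMap L E)) := by
      rw [Metric.mem_closure_iff]
      intro δ hδ
      have hε : (δ / (max ‖a‖ 1)) ^ f.natDegree / (f.natDegree + 1) > 0 := by positivity
      obtain ⟨g, gmon, gdeg, gcoeff⟩ :=
        exists_monic_and_natDegree_eq_and_norm_map_algebraMap_coeff_sub_lt hi fmon hε
      obtain ⟨b, hb, hab⟩ := exists_aroots_norm_sub_lt_of_norm_coeff_sub_lt
          hε fa0 fmon (gmon.map _) (gdeg ▸ (g.natDegree_map _)) gcoeff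
          (by simpa [Polynomial.map_map] using
            (IsAlgClosed.splits g).map ((algebraMap L E).comp _))
      have hab : ‖a - b‖ < δ := by
        rw [← Real.rpow_natCast, ← mul_comm_div, div_self, one_mul,
            ← Real.rpow_mul (div_pos hδ (by positivity)).le, mul_inv_cancel₀] at hab
        · simpa [mul_assoc, div_mul_cancel₀ _ (by positivity : (max ‖a‖ 1) > 0).ne'] using hab
        · simp [fnatdeg0]
        · positivity
      rw [Polynomial.aroots_def, Splits.roots_map ((IsAlgClosed.splits g).map _),
          Multiset.mem_map] at hb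
      obtain ⟨b', _, hb'⟩ := hb
      refine ⟨b, ⟨b', hb'⟩, ?_⟩
      rw [dist_eq_norm]
      exact hab
    rw [hclosed.closure_eq] at hmem
    obtain ⟨a', ha'⟩ := hmem
    refine ⟨a', ?_⟩
    apply_fun algebraMap L E
    · rwa [← Polynomial.aeval_algebraMap_apply_eq_algebraMap_eval, ha', map_zero]
    · exact RingHom.injective _
  · push Not at hn
    have hsurj : Function.Surjective (algebraMap F L) := by
      intro y
      obtain ⟨x, hx⟩ := Metric.denseRange_iff.mp hi y 1 one_pos
      refine ⟨x, ?_⟩
      by_contra hne
      rw [dist_eq_norm] at hx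
      have h0 : y - algebraMap F L x ≠ 0 := sub_ne_zero.2 (Ne.symm hne)
      have h1 := hn (y - algebraMap F L x)⁻¹
      rw [norm_inv] at h1
      have h2 := (inv_le_one₀ (norm_pos_iff.2 h0)).1 h1
      linarith
    let e : F ≃+* L := RingEquiv.ofBijective (algebraMap F L) ⟨(algebraMap F L).injective, hsurj⟩
    apply IsAlgClosed.of_exists_root
    intro f fmon firr
    have hdeg : (f.map (e.symm : L →+* F)).degree ≠ 0 := by
      rw [Polynomial.degree_map]
      exact (degree_pos_of_irreducible firr).ne'
    obtain ⟨x, hx⟩ := IsAlgClosed.exists_root _ hdeg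
    refine ⟨e x, ?_⟩
    rw [IsRoot, Polynomial.eval_map] at hx
    have h1 := congrArg e hx
    rw [map_zero, ← RingEquiv.coe_toRingHom, Polynomial.hom_eval₂] at h1
    have h2 : ((e : F →+* L).comp (e.symm : L →+* F)) = RingHom.id L := by
      ext y
      simp
    rw [h2] at h1
    exact h1

end Pool.Agent.Helper79.DM
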