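import Mathlib
import Pool.Agent.Helper55.DM.A1

/-!
# Isometric embeddings into complete algebraically closed ultrametric fields
-/

set_option autoImplicit false

namespace Pool.Agent.Helper79.DM

open Polynomial UniformSpace

theorem ultra_completion (K : Type) [NormedField K] [IsUltrametricDist K] :
    IsUltrametricDist (Completion K) := by
  refine IsUltrametricDist.isUltrametricDist_of_forall_norm_natCast_le_one fun n => ?_
  have h1 : ((n : Completion K)) = ((n : K) : Completion K) :=
    (map_natCast (Completion.coeRingHom (α := K)) n).symm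
  rw [h1, Completion.norm_coe]
  exact IsUltrametricDist.norm_natCast_le_one K n

theorem exists_closed (p : ℕ) (K : Type) [NormedField K] [IsUltrametricDist K] [CharP K p]
    (hn : ∃ x : K, 1 < ‖x‖) :
    ∃ (L : Type) (_ : NormedField L) (_ : IsUltrametricDist L) (_ : CompleteSpace L)
      (_ : IsAlgClosed L) (_ : CharP L p) (σ : K →+* L), ∀ x, ‖σ x‖ = ‖x‖ := by
  have hu1 := ultra_completion K
  let hK1 : NontriviallyNormedField (Completion K) :=
    { (inferInstance : NormedField (Completion K)) with
      non_trivial := by
        obtain ⟨x, hx⟩ := hn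
        exact ⟨(x : Completion K), by rwa [Completion.norm_coe]⟩ }
  let K2 := AlgebraicClosure (Completion K)
  let hK2 : NormedField K2 := spectralNorm.normedField (Completion K) K2
  have hu2 : IsUltrametricDist K2 :=
    IsUltrametricDist.isUltrametricDist_of_forall_norm_add_le_max_norm
      (isNonarchimedean_spectralNorm (K := Completion K) (L := K2))
  have hu3 := ultra_completion K2
  let σ1 : K →+* Completion K := Completion.coeRingHom
  let σ2 : Completion K →+* K2 := algebraMap _ _
  let σ3 : K2 →+* Completion K2 := Completion.coeRingHom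
  have hac : IsAlgClosed (Completion K2) :=
    isAlgClosed_of_dense (F := K2) (L := Completion K2) Completion.denseRange_coe
  refine ⟨Completion K2, inferInstance, hu3, inferInstance, hac,
    charP_of_injective_ringHom (f := (σ3.comp σ2).comp σ1) (RingHom.injective _) p,
    (σ3.comp σ2).comp σ1, fun x => ?_⟩
  have e3 : ∀ y : K2, ‖σ3 y‖ = ‖y‖ := fun y => Completion.norm_coe y
  have e2 : ∀ y : Completion K, ‖σ2 y‖ = ‖y‖ := fun y =>
    spectralNorm_extends (K := Completion K) (L := K2) y
  have e1 : ∀ y : K, ‖σ1 y‖ = ‖y‖ := fun y => Completion.norm_coe y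
  rw [RingHom.comp_apply, RingHom.comp_apply, e3, e2, e1]

/-- A field with a nonarchimedean absolute value embeds isometrically into a complete
algebraically closed ultrametric field. -/
theorem place_of_abs (p : ℕ) [Fact p.Prime] (K : Type) [Field K] [CharP K p]
    (v : AbsoluteValue K ℝ) (hv : ∀ x y, v (x + y) ≤ max (v x) (v y)) (hn : ∃ x, 1 < v x) :
    ∃ (L : Type) (_ : NormedField L) (_ : IsUltrametricDist L) (_ : CompleteSpace L)
      (_ : IsAlgClosed L) (_ : CharP L p) (σ : K →+* L), ∀ x, ‖σ x‖ = v x := by
  have hu : IsUltrametricDist (WithAbs v) :=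
    IsUltrametricDist.isUltrametricDist_of_forall_norm_add_le_max_norm
      (fun x y => hv x.ofAbs y.ofAbs)
  have hc : CharP (WithAbs v) p :=
    charP_of_injective_ringHom (f := ((WithAbs.equiv v).symm : K →+* WithAbs v))
      (RingHom.injective _) p
  obtain ⟨L, h1, h2, h3, h4, h5, σ, hσ⟩ := exists_closed p (WithAbs v)
    (by obtain ⟨x, hx⟩ := hn; exact ⟨WithAbs.toAbs v x, hx⟩)
  exact ⟨L, h1, h2, h3, h4, h5, σ.comp ((WithAbs.equiv v).symm : K →+* WithAbs v),
    fun x => hσ (WithAbs.toAbs v x)⟩

end Pool.Agent.Helper79.DM
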