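import Mathlib
import Pool.Agent.Helper55.DM.A2

/-!
# Places of finitely generated rings of characteristic `p`
-/

set_option autoImplicit false

namespace Pool.Agent.Helper79.DM

open Polynomial nonZeroDivisors

section emb

variable {P R L : Type} [CommRing P] [IsDomain P] [IsIntegrallyClosed P] [CommRing R]
  [IsDomain R] [Algebra P R] [Module.Finite P R] [FaithfulSMul P R] [Field L]
  [IsAlgClosed L] [Algebra P L] [FaithfulSMul P L]

variable (P R L) in
/-- All embeddings of `R` into `L` over `P`, and minimal polynomials. -/
theorem exists_embeddings :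
    ∃ (I : Type) (_ : Finite I) (σ : I → R →+* L) (N : ℕ), (∀ i, Function.Injective (σ i)) ∧
      ∀ u : R, ∃ m : P[X], m.Monic ∧ m.natDegree ≤ N ∧ aeval u m = 0 ∧ (u ≠ 0 → m.coeff 0 ≠ 0) ∧
        ∀ z : L, z ∈ (m.map (algebraMap P L)).roots ↔ ∃ i, σ i u = z := by
  let a1 : Algebra (FractionRing P) (FractionRing R) := FractionRing.liftAlgebra P _
  let a2 : Algebra (FractionRing P) L := FractionRing.liftAlgebra P _
  have t1 : IsScalarTower P (FractionRing P) (FractionRing R) :=
    FractionRing.isScalarTower_liftAlgebra P (FractionRing R)
  have t2 : IsScalarTower P (FractionRing P) L := FractionRing.isScalarTower_liftAlgebra P L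
  have hint : Algebra.IsIntegral P R := Algebra.IsIntegral.of_finite P R
  have halg : Algebra.IsAlgebraic P R := inferInstance
  have hfd : FiniteDimensional (FractionRing P) (FractionRing R) :=
    Module.Finite.of_isLocalization P R P⁰
  refine ⟨FractionRing R →ₐ[FractionRing P] L, inferInstance,
    fun ψ => (ψ : FractionRing R →+* L).comp (algebraMap R (FractionRing R)),
    Module.finrank (FractionRing P) (FractionRing R), ?_, ?_⟩
  · intro ψ
    rw [RingHom.coe_comp]
    exact (RingHom.injective _).comp (IsFractionRing.injective R (FractionRing R))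
  · intro u
    have hu : IsIntegral P u := hint.isIntegral u
    have hmin := minpoly.isIntegrallyClosed_eq_field_fractions (FractionRing P) (FractionRing R) hu
    refine ⟨minpoly P u, minpoly.monic hu, ?_, minpoly.aeval P u, ?_, ?_⟩
    · have h1 := minpoly.natDegree_le (A := FractionRing P) (algebraMap R (FractionRing R) u)
      rwa [hmin, (minpoly.monic hu).natDegree_map] at h1
    · intro h0 h1
      have h2 : IsIntegral (FractionRing P) (algebraMap R (FractionRing R) u) :=
        Algebra.IsIntegral.isIntegral _
      have h3 := minpoly.coeff_zero_ne_zero h2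
        ((map_ne_zero_iff _ (IsFractionRing.injective R (FractionRing R))).2 h0)
      rw [hmin, Polynomial.coeff_map, h1, map_zero] at h3
      exact h3 rfl
    · intro z
      have h1 := Algebra.IsAlgebraic.range_eval_eq_rootSet_minpoly (F := FractionRing P) L
        (algebraMap R (FractionRing R) u)
      rw [hmin] at h1
      have h2 : z ∈ (Set.range fun ψ : FractionRing R →ₐ[FractionRing P] L =>
          ψ (algebraMap R (FractionRing R) u)) ↔
          z ∈ ((minpoly P u).map (algebraMap P (FractionRing P))).rootSet L := by rw [h1]
      rw [Polynomial.mem_rootSet', Polynomial.map_map, ← IsScalarTower.algebraMap_eq] at h2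
      rw [Polynomial.mem_roots', Polynomial.IsRoot]
      constructor
      · intro h3
        obtain ⟨ψ, hψ⟩ := h2.2 ⟨h3.1, by
          rw [Polynomial.aeval_map_algebraMap, Polynomial.aeval_def, ← Polynomial.eval_map]
          exact h3.2⟩
        exact ⟨ψ, hψ⟩
      · rintro ⟨ψ, hψ⟩
        have h3 := h2.1 ⟨ψ, hψ⟩
        refine ⟨h3.1, ?_⟩
        have h4 := h3.2
        rw [Polynomial.aeval_map_algebraMap, Polynomial.aeval_def, ← Polynomial.eval_map] at h4
        exact h4

end emb

end Pool.Agent.Helper79.DM
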