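import Mathlib
import Pool.Agent.Helper55.DM.A3

/-!
# Block A: places of finitely generated rings of characteristic `p`

`isAlgClosed_of_dense` (file A1), `place_of_abs` (file A2), `exists_places` (this file).
-/

set_option autoImplicit false

namespace Pool.Agent.Helper79.DM

open Polynomial nonZeroDivisors NNReal

open Classical in
/-- The valuation `2 ^ totalDegree`. -/
noncomputable def degVal (F : Type) [Field F] (τ : Type) : Valuation (MvPolynomial τ F) ℝ≥0 where
  toFun f := if f = 0 then 0 else 2 ^ f.totalDegree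
  map_zero' := if_pos rfl
  map_one' := by simp
  map_mul' f g := by
    by_cases hf : f = 0
    · simp [hf]
    · by_cases hg : g = 0
      · simp [hg]
      · rw [if_neg hf, if_neg hg, if_neg (mul_ne_zero hf hg),
          MvPolynomial.totalDegree_mul_of_isDomain hf hg, pow_add]
  map_add_le_max' f g := by
    by_cases hf : f = 0
    · simp [hf]
    · by_cases hg : g = 0
      · simp [hg]
      · by_cases hfg : f + g = 0
        · simp [hfg]
        · rw [if_neg hf, if_neg hg, if_neg hfg]
          rcases le_max_iff.1 (MvPolynomial.totalDegree_add f g) with h | h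
          · exact le_max_of_le_left (pow_le_pow_right₀ (by norm_num) h)
          · exact le_max_of_le_right (pow_le_pow_right₀ (by norm_num) h)

theorem degVal_apply {F : Type} [Field F] {τ : Type} {f : MvPolynomial τ F} (hf : f ≠ 0) :
    degVal F τ f = 2 ^ f.totalDegree := by
  classical
  exact if_neg hf

theorem totalDegree_rename_castSucc {F : Type} [Field F] {s : ℕ} (f : MvPolynomial (Fin s) F) :
    (MvPolynomial.rename (Fin.castSucc) f).totalDegree = f.totalDegree := by
  refine le_antisymm (MvPolynomial.totalDegree_rename_le _ _) ?_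
  rcases Nat.eq_zero_or_pos s with rfl | hs
  · rw [MvPolynomial.eq_C_of_isEmpty f, MvPolynomial.totalDegree_C]
    exact Nat.zero_le _
  · have : Nonempty (Fin s) := ⟨⟨0, hs⟩⟩
    have h1 := MvPolynomial.totalDegree_rename_le (Function.invFun (Fin.castSucc (n := s)))
      (MvPolynomial.rename (Fin.castSucc) f)
    rw [MvPolynomial.rename_rename,
      Function.invFun_comp (Fin.castSucc_injective s), MvPolynomial.rename_id_apply] at h1
    exact h1

theorem exists_degField (p : ℕ) [Fact p.Prime] (s : ℕ) :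
    ∃ (L : Type) (_ : NormedField L) (_ : IsUltrametricDist L) (_ : CompleteSpace L)
      (_ : IsAlgClosed L) (_ : CharP L p) (φ : MvPolynomial (Fin s) (ZMod p) →+* L),
      ∀ f, f ≠ 0 → ‖φ f‖ = 2 ^ f.totalDegree := by
  have hS : (MvPolynomial (Fin (s + 1)) (ZMod p))⁰ ≤
      (degVal (ZMod p) (Fin (s + 1))).supp.primeCompl := by
    intro x hx h
    have hx0 : x ≠ 0 := nonZeroDivisors.ne_zero hx
    have h1 : degVal (ZMod p) (Fin (s + 1)) x = 0 := h
    rw [degVal_apply hx0] at h1
    exact pow_ne_zero _ two_ne_zero h1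
  set E := FractionRing (MvPolynomial (Fin (s + 1)) (ZMod p)) with hE
  let w : Valuation E ℝ≥0 := (degVal (ZMod p) (Fin (s + 1))).extendToLocalization hS E
  have hw : ∀ f : MvPolynomial (Fin (s + 1)) (ZMod p), f ≠ 0 →
      w (algebraMap _ E f) = 2 ^ f.totalDegree := by
    intro f hf
    rw [← degVal_apply hf]
    exact Valuation.extendToLocalization_apply_map_apply _ _ _ _
  let v : AbsoluteValue E ℝ :=
    { toFun := fun x => (w x : ℝ)
      map_mul' := fun x y => by rw [map_mul, NNReal.coe_mul]
      nonneg' := fun x => NNReal.coe_nonneg _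
      eq_zero' := fun x => by rw [NNReal.coe_eq_zero, w.zero_iff]
      add_le' := fun x y => by
        have h1 := w.map_add x y
        have h2 : max (w x) (w y) ≤ w x + w y :=
          max_le (le_add_of_nonneg_right zero_le) (le_add_of_nonneg_left zero_le)
        exact_mod_cast h1.trans h2 }
  have hv : ∀ x y, v (x + y) ≤ max (v x) (v y) := by
    intro x y
    have h1 := w.map_add x y
    change ((w (x + y) : ℝ≥0) : ℝ) ≤ max ((w x : ℝ≥0) : ℝ) ((w y : ℝ≥0) : ℝ)
    exact_mod_cast h1
  have hn : ∃ x, 1 < v x := by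
    refine ⟨algebraMap (MvPolynomial (Fin (s + 1)) (ZMod p)) E (MvPolynomial.X 0), ?_⟩
    change (1 : ℝ) < ((w _ : ℝ≥0) : ℝ)
    rw [hw _ (MvPolynomial.X_ne_zero 0), MvPolynomial.totalDegree_X]
    norm_num
  have hc : CharP E p := charP_of_injective_algebraMap
    (IsFractionRing.injective (MvPolynomial (Fin (s + 1)) (ZMod p)) E) p
  obtain ⟨L, h1, h2, h3, h4, h5, σ, hσ⟩ := place_of_abs p E v hv hn
  refine ⟨L, h1, h2, h3, h4, h5, (σ.comp (algebraMap _ E)).comp
    (MvPolynomial.rename (Fin.castSucc)).toRingHom, fun f hf => ?_⟩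
  have hf' : MvPolynomial.rename (Fin.castSucc) f ≠ 0 := by
    rwa [Ne, map_eq_zero_iff _ (MvPolynomial.rename_injective _ (Fin.castSucc_injective s))]
  change ‖σ (algebraMap _ E (MvPolynomial.rename (Fin.castSucc) f))‖ = _
  rw [hσ]
  change ((w _ : ℝ≥0) : ℝ) = _
  rw [hw _ hf', totalDegree_rename_castSucc]
  norm_num

theorem finite_totalDegree_le (p : ℕ) [Fact p.Prime] (s T : ℕ) :
    {f : MvPolynomial (Fin s) (ZMod p) | f.totalDegree ≤ T}.Finite := by
  have h1 : Finite (MvPolynomial.restrictTotalDegree (Fin s) (ZMod p) T) :=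
    Module.finite_of_finite (ZMod p)
  refine Set.Finite.subset (Set.toFinite
    ((MvPolynomial.restrictTotalDegree (Fin s) (ZMod p) T : Submodule _ _) : Set _)) ?_
  intro f hf
  exact (MvPolynomial.mem_restrictTotalDegree _ _ _).2 hf

theorem norm_multiset_prod_le_pow {L : Type} [NormedField L] {M : ℝ} (hM : 1 ≤ M)
    (t : Multiset L) (ht : ∀ z ∈ t, ‖z‖ ≤ M) : ‖t.prod‖ ≤ M ^ Multiset.card t := by
  induction t using Multiset.induction_on with
  | empty => simp
  | cons a t ih =>
    rw [Multiset.prod_cons, norm_mul, Multiset.card_cons, pow_succ']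
    exact mul_le_mul (ht a (Multiset.mem_cons_self a t))
      (ih fun z hz => ht z (Multiset.mem_cons_of_mem hz)) (norm_nonneg _) (by linarith)

theorem exists_places_aux (p : ℕ) [Fact p.Prime] (R : Type) [CommRing R] [IsDomain R]
    [Algebra (ZMod p) R] [Algebra.FiniteType (ZMod p) R] :
    ∃ (L : Type) (_ : NormedField L) (_ : IsUltrametricDist L) (_ : CompleteSpace L)
      (_ : IsAlgClosed L) (_ : CharP L p) (I : Type) (_ : Finite I)
      (σ : I → R →+* L) (N : ℕ), (∀ i, Function.Injective (σ i)) ∧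
      (∀ M : ℝ, {u : R | ∀ i, ‖σ i u‖ ≤ M}.Finite) ∧
      (∀ u : R, u ≠ 0 → ∀ i, ∀ M : ℝ, 1 ≤ M → (∀ j, ‖σ j u‖ ≤ M) → 1 ≤ ‖σ i u‖ * M ^ N) := by
  classical
  obtain ⟨s, g, hg, hgf⟩ := exists_finite_inj_algHom_of_fg (ZMod p) R
  obtain ⟨L, h1, h2, h3, h4, h5, φ, hφ⟩ := exists_degField p s
  let P := MvPolynomial (Fin s) (ZMod p)
  let aR : Algebra P R := g.toRingHom.toAlgebra
  let aL : Algebra P L := φ.toAlgebra
  have hφ0 : Function.Injective φ := by
    rw [injective_iff_map_eq_zero]
    intro f hf
    by_contra h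
    have h6 := hφ f h
    rw [hf, norm_zero] at h6
    exact pow_ne_zero _ two_ne_zero h6.symm
  have f1 : Module.Finite P R := hgf
  have f2 : FaithfulSMul P R := (faithfulSMul_iff_algebraMap_injective P R).2 hg
  have f3 : FaithfulSMul P L := (faithfulSMul_iff_algebraMap_injective P L).2 hφ0
  have f4 : IsIntegrallyClosed P := inferInstance
  obtain ⟨I, hI, σ, N, hσ, hm⟩ := exists_embeddings P R L
  -- the key bounds
  have hge : ∀ f : P, f ≠ 0 → 1 ≤ ‖φ f‖ := by
    intro f hf
    rw [hφ f hf]
    exact one_le_pow₀ (by norm_num)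
  refine ⟨L, h1, h2, h3, h4, h5, I, hI, σ, N, hσ, ?_, ?_⟩
  · intro M
    set M' := max M 1 with hM'
    have hM1 : 1 ≤ M' := le_max_right _ _
    obtain ⟨T, hT⟩ := pow_unbounded_of_one_lt (M' ^ N * (N.choose (N / 2) : ℝ) + 1)
      (one_lt_two : (1 : ℝ) < 2)
    have hfin := bUnion_roots_finite (algebraMap P R) N (finite_totalDegree_le p s T)
    refine hfin.subset ?_
    intro u hu
    obtain ⟨m, hm1, hm2, hm3, -, hm5⟩ := hm u
    rw [Set.mem_iUnion₂]
    refine ⟨m, ⟨hm2, fun i => ?_⟩, ?_⟩
    · by_cases hmi : m.coeff i = 0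
      · rw [hmi]
        change (0 : P).totalDegree ≤ T
        rw [MvPolynomial.totalDegree_zero]
        exact Nat.zero_le _
      · have h6 := Polynomial.coeff_le_of_roots_le (f := algebraMap P L) (B := M') (p := m) i hm1
          (IsAlgClosed.splits _) (by
            intro z hz
            obtain ⟨j, hj⟩ := (hm5 z).1 hz
            rw [← hj]
            exact (hu j).trans (le_max_left _ _))
        rw [Polynomial.coeff_map] at h6
        have h7 : ‖φ (m.coeff i)‖ = 2 ^ (m.coeff i).totalDegree := hφ _ hmi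
        have h8 : (M' ^ (m.natDegree - i) * (m.natDegree.choose i : ℝ)) ≤
            M' ^ N * (N.choose (N / 2) : ℝ) := by
          refine mul_le_mul (pow_le_pow_right₀ hM1 (by omega)) ?_ (by positivity) (by positivity)
          exact_mod_cast (Nat.choose_le_choose i hm2).trans (Nat.choose_le_middle i N)
        have h9 : (2 : ℝ) ^ (m.coeff i).totalDegree < 2 ^ T := by
          rw [← h7]
          change ‖algebraMap P L (m.coeff i)‖ < _
          linarith
        exact ((pow_lt_pow_iff_right₀ (by norm_num)).1 h9).le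
    · rw [Finset.mem_coe, Multiset.mem_toFinset, Polynomial.mem_roots']
      refine ⟨(hm1.map _).ne_zero, ?_⟩
      rw [Polynomial.IsRoot, Polynomial.eval_map, ← Polynomial.aeval_def]
      exact hm3
  · intro u hu i M hM hb
    obtain ⟨m, hm1, hm2, hm3, hm4, hm5⟩ := hm u
    have h6 := hge _ (hm4 hu)
    set q := m.map (algebraMap P L) with hq
    have hqm : q.Monic := hm1.map _
    have hsp : q.Splits := IsAlgClosed.splits _
    have h7 : φ (m.coeff 0) = q.coeff 0 := by
      rw [hq, Polynomial.coeff_map]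
      rfl
    have h8 : q.coeff 0 = (-1) ^ q.natDegree * q.roots.prod := by
      rw [hsp.coeff_zero_eq_prod_roots_of_monic hqm]
    have hmem : σ i u ∈ q.roots := (hm5 _).2 ⟨i, rfl⟩
    rw [h7, h8, norm_mul, norm_pow, norm_neg, norm_one, one_pow, one_mul,
      ← Multiset.prod_erase hmem, norm_mul] at h6
    have h9 : ‖(q.roots.erase (σ i u)).prod‖ ≤ M ^ N := by
      refine (norm_multiset_prod_le_pow hM _ fun z hz => ?_).trans ?_
      · obtain ⟨j, hj⟩ := (hm5 z).1 (Multiset.mem_of_mem_erase hz)
        rw [← hj]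
        exact hb j
      · refine pow_le_pow_right₀ hM ?_
        refine (Multiset.card_le_card (Multiset.erase_le _ _)).trans ?_
        refine (Polynomial.card_roots' q).trans ?_
        rw [hq, hm1.natDegree_map]
        exact hm2
    exact h6.trans (mul_le_mul_of_nonneg_left h9 (norm_nonneg _))

/-- Places of the finitely generated ring `A`: finitely many embeddings into a complete
algebraically closed ultrametric field, a set which is bounded at all of them is finite, and
a nonzero element can not be small at one of them without being large at another one. -/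
theorem exists_places (p : ℕ) [Fact p.Prime] (K : Type) [Field K] [CharP K p] (B : Set K)
    (hB : B.Finite) :
    ∃ (L : Type) (_ : NormedField L) (_ : IsUltrametricDist L) (_ : CompleteSpace L)
      (_ : IsAlgClosed L) (_ : CharP L p) (A : Subring K) (I : Type) (_ : Finite I)
      (σ : I → A →+* L) (N : ℕ), B ⊆ A ∧ (∀ i, Function.Injective (σ i)) ∧
      (∀ M : ℝ, {u : A | ∀ i, ‖σ i u‖ ≤ M}.Finite) ∧
      (∀ u : A, u ≠ 0 → ∀ i, ∀ M : ℝ, 1 ≤ M → (∀ j, ‖σ j u‖ ≤ M) → 1 ≤ ‖σ i u‖ * M ^ N) := by
  let aK : Algebra (ZMod p) K := ZMod.algebra K p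
  let A0 : Subalgebra (ZMod p) K := Algebra.adjoin (ZMod p) B
  have hft : Algebra.FiniteType (ZMod p) A0 := Algebra.FiniteType.adjoin_of_finite hB
  let aA : Algebra (ZMod p) A0.toSubring := inferInstanceAs (Algebra (ZMod p) A0)
  have hft' : Algebra.FiniteType (ZMod p) A0.toSubring := hft
  obtain ⟨L, h1, h2, h3, h4, h5, I, hI, σ, N, k1, k2, k3⟩ := exists_places_aux p A0.toSubring
  exact ⟨L, h1, h2, h3, h4, h5, A0.toSubring, I, hI, σ, N, Algebra.subset_adjoin, k1, k2, k3⟩

end Pool.Agent.Helper79.DM
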